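import Mathlib

/-!
# Extraction of a connected 4-critical graph on `Fin n`
-/

set_option autoImplicit false

namespace Pool.Agent.H62R3.Crit4

open SimpleGraph

/-- a minimal non-3-colourable subgraph -/
theorem exists_min {V : Type} [Finite V] (G : SimpleGraph V) (h3 : ¬ G.Colorable 3) :
    ∃ K : SimpleGraph V, K ≤ G ∧ ¬ K.Colorable 3 ∧
      ∀ e ∈ K.edgeSet, (K.deleteEdges {e}).Colorable 3 := by
  classical
  have hwf : WellFounded ((· < ·) : SimpleGraph V → SimpleGraph V → Prop) := wellFounded_lt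
  obtain ⟨K, ⟨hK1, hK2⟩, hmin⟩ := hwf.has_min {K : SimpleGraph V | K ≤ G ∧ ¬ K.Colorable 3}
    ⟨G, le_rfl, h3⟩
  refine ⟨K, hK1, hK2, fun e he => ?_⟩
  by_contra hcon
  refine hmin (K.deleteEdges {e}) ⟨(deleteEdges_le _).trans hK1, hcon⟩ ?_
  refine lt_of_le_of_ne (deleteEdges_le _) ?_
  intro heq
  have : e ∈ (K.deleteEdges {e}).edgeSet := by rw [heq]; exact he
  rw [edgeSet_deleteEdges] at this
  exact this.2 rfl

/-- in a minimal non-3-colourable graph all edges lie in one component -/
theorem edges_in_comp {V : Type} (K : SimpleGraph V) (h3 : ¬ K.Colorable 3)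
    (hc : ∀ e ∈ K.edgeSet, (K.deleteEdges {e}).Colorable 3) (u0 w0 : V) (h0 : K.Adj u0 w0)
    (x y : V) (hxy : K.Adj x y) : x ∈ (K.connectedComponentMk u0).supp := by
  by_contra hx
  obtain ⟨f2⟩ := hc s(x, y) hxy
  obtain ⟨f1⟩ := hc s(u0, w0) h0
  apply h3
  classical
  have hiff : ∀ a b, K.Adj a b → (a ∈ (K.connectedComponentMk u0).supp ↔
      b ∈ (K.connectedComponentMk u0).supp) := by
    intro a b hab
    simp only [ConnectedComponent.mem_supp_iff]
    rw [ConnectedComponent.connectedComponentMk_eq_of_adj hab]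
  have hu : u0 ∈ (K.connectedComponentMk u0).supp := by simp
  refine ⟨Coloring.mk (fun v => if v ∈ (K.connectedComponentMk u0).supp then f2 v else f1 v) ?_⟩
  intro a b hab
  by_cases ha : a ∈ (K.connectedComponentMk u0).supp
  · have hb := (hiff a b hab).mp ha
    simp only [if_pos ha, if_pos hb]
    apply f2.valid
    rw [deleteEdges_adj]
    refine ⟨hab, ?_⟩
    rw [Set.mem_singleton_iff]
    intro h
    rw [Sym2.eq_iff] at h
    rcases h with ⟨h, _⟩ | ⟨_, h⟩
    · exact hx (h ▸ ha)
    · exact hx (h ▸ hb)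
  · have hb : b ∉ (K.connectedComponentMk u0).supp := fun h => ha ((hiff a b hab).mpr h)
    simp only [if_neg ha, if_neg hb]
    apply f1.valid
    rw [deleteEdges_adj]
    refine ⟨hab, ?_⟩
    rw [Set.mem_singleton_iff]
    intro h
    rw [Sym2.eq_iff] at h
    rcases h with ⟨h, _⟩ | ⟨_, h⟩
    · exact ha (h ▸ hu)
    · exact hb (h ▸ hu)

/-- a 3-colouring of `K - e` gives a 4-colouring of `K` -/
theorem colorable_four {V : Type} (K : SimpleGraph V) (x y : V)
    (h : (K.deleteEdges {s(x, y)}).Colorable 3) : K.Colorable 4 := by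
  classical
  obtain ⟨f⟩ := h
  refine ⟨Coloring.mk (fun v => if v = x then (3 : Fin 4) else (f v).castSucc) ?_⟩
  intro a b hab
  by_cases ha : a = x
  · have hb : b ≠ x := by rintro rfl; exact hab.ne ha
    simp only [if_pos ha, if_neg hb]
    have := (f b).isLt
    intro h
    have h' := congrArg Fin.val h
    simp at h'
    omega
  · by_cases hb : b = x
    · simp only [if_neg ha, if_pos hb]
      have := (f a).isLt
      intro h
      have h' := congrArg Fin.val h
      simp at h'
      omega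
    · simp only [if_neg ha, if_neg hb]
      intro h
      have h' := Fin.castSucc_injective _ h
      revert h'
      apply f.valid
      rw [deleteEdges_adj]
      refine ⟨hab, ?_⟩
      rw [Set.mem_singleton_iff]
      intro h
      rw [Sym2.eq_iff] at h
      rcases h with ⟨h, _⟩ | ⟨_, h⟩
      · exact ha h
      · exact hb h

/-- The five-cycle is not bipartite -/
theorem c5_two (v : Fin 5 → Fin 2) : ∃ i : Fin 5, v i = v (i + 1) := by
  revert v; decide

/-- Lower bound for the number of edges outside a bipartite subgraph. -/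
theorem missing {U : Type} [Finite U] (K H : SimpleGraph U) (m : ℕ) [NeZero m]
    (a : Fin 5 → Fin m → U) (hinj : ∀ i s j t, a i s = a j t → i = j ∧ s = t)
    (hadj : ∀ i s t, K.Adj (a i s) (a (i + 1) t)) (hH : H.Colorable 2) :
    m * m ≤ Nat.card ↥(K.edgeSet \ H.edgeSet) := by
  classical
  obtain ⟨c⟩ := hH
  -- the five-cycle number (s,t)
  let x : Fin m × Fin m → Fin 5 → Fin m := fun p => ![p.1, p.2, p.1, p.2, p.1 + p.2]
  have hex : ∀ p : Fin m × Fin m, ∃ i : Fin 5, ¬ H.Adj (a i (x p i)) (a (i + 1) (x p (i + 1))) := by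
    intro p
    obtain ⟨i, hi⟩ := c5_two (fun i => c (a i (x p i)))
    exact ⟨i, fun h => c.valid h hi⟩
  choose f hf using hex
  let F : Fin m × Fin m → ↥(K.edgeSet \ H.edgeSet) := fun p =>
    ⟨s(a (f p) (x p (f p)), a (f p + 1) (x p (f p + 1))), hadj _ _ _, hf p⟩
  have hF : Function.Injective F := by
    intro p p' h
    have h' : s(a (f p) (x p (f p)), a (f p + 1) (x p (f p + 1))) =
        s(a (f p') (x p' (f p')), a (f p' + 1) (x p' (f p' + 1))) := congrArg Subtype.val h
    rw [Sym2.eq_iff] at h'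
    have key : f p = f p' ∧ x p (f p) = x p' (f p) ∧ x p (f p + 1) = x p' (f p + 1) := by
      rcases h' with ⟨h1, h2⟩ | ⟨h1, h2⟩
      · have e1 := hinj _ _ _ _ h1
        have e2 := hinj _ _ _ _ h2
        refine ⟨e1.1, ?_, ?_⟩
        · rw [e1.2, e1.1]
        · rw [e2.2, e1.1]
      · exfalso
        have e1 := (hinj _ _ _ _ h1).1
        have e2 := (hinj _ _ _ _ h2).1
        rw [← e2] at e1
        have : ∀ i : Fin 5, i ≠ i + 1 + 1 := by decide
        exact this _ e1
    obtain ⟨_, e2, e3⟩ := key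
    generalize f p = i at e2 e3
    obtain ⟨s, t⟩ := p
    obtain ⟨s', t'⟩ := p'
    fin_cases i
    · simp [x] at e2 e3; rw [e2, e3]
    · simp [x] at e2 e3; rw [e2, e3]
    · simp [x] at e2 e3; rw [e2, e3]
    · simp [x] at e2 e3
      subst e2
      rw [add_right_cancel e3]
    · simp [x] at e2 e3
      subst e3
      rw [add_left_cancel e2]
  calc m * m = Nat.card (Fin m × Fin m) := by simp
    _ ≤ _ := Nat.card_le_card_of_injective F hF

/-- The extraction theorem. -/
theorem extract {V : Type} [Fintype V] (G : SimpleGraph V) (h3 : ¬ G.Colorable 3) (m : ℕ)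
    [NeZero m] (a : Fin 5 → Fin m → V) (hinj : ∀ i s j t, a i s = a j t → i = j ∧ s = t)
    (hcrit : ∀ i s t, (G.deleteEdges {s(a i s, a (i + 1) t)}).Colorable 3) :
    ∃ n : ℕ, m ≤ n ∧ n ≤ Fintype.card V ∧ ∃ K : SimpleGraph (Fin n),
      K.Connected ∧ K.chromaticNumber = 4 ∧ (∀ e ∈ K.edgeSet, (K.deleteEdges {e}).Colorable 3) ∧
      ∀ H : SimpleGraph (Fin n), H.Colorable 2 → m * m ≤ Nat.card ↥(K.edgeSet \ H.edgeSet) := by
  classical
  obtain ⟨K, hKG, hK3, hKc⟩ := exists_min G h3
  have hadj : ∀ i s t, K.Adj (a i s) (a (i + 1) t) := by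
    intro i s t
    by_contra hcon
    apply hK3
    refine (hcrit i s t).mono_left ?_
    intro x y hxy
    rw [deleteEdges_adj]
    refine ⟨hKG hxy, ?_⟩
    rw [Set.mem_singleton_iff]
    intro h
    rw [Sym2.eq_iff] at h
    rcases h with ⟨rfl, rfl⟩ | ⟨rfl, rfl⟩
    · exact hcon hxy
    · exact hcon hxy.symm
  have hm : 0 < m := Nat.pos_of_ne_zero (NeZero.ne m)
  let u0 : V := a 0 0
  let w0 : V := a (0 + 1) 0
  have h0 : K.Adj u0 w0 := hadj 0 0 0
  let C := K.connectedComponentMk u0
  have hedge : ∀ x y, K.Adj x y → x ∈ C.supp := edges_in_comp K hK3 hKc u0 w0 h0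
  let W : Type := ↥C.supp
  have instW : Fintype W := Fintype.ofFinite _
  let φ : W ≃ Fin (Fintype.card W) := Fintype.equivFin W
  let ψ : Fin (Fintype.card W) → V := fun k => (φ.symm k).1
  have hψ : Function.Injective ψ := Subtype.val_injective.comp φ.symm.injective
  have hψφ : ∀ (v : V) (h : v ∈ C.supp), ψ (φ ⟨v, h⟩) = v := by
    intro v h; simp [ψ]
  let K2 : SimpleGraph (Fin (Fintype.card W)) := (K.induce C.supp).comap φ.symm
  have hK2 : ∀ k l, K2.Adj k l ↔ K.Adj (ψ k) (ψ l) := by
    intro k l; rfl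
  have hcard : Fintype.card W ≤ Fintype.card V :=
    Fintype.card_le_of_injective (fun w : W => w.1) Subtype.val_injective
  have hmem : ∀ i s, a i s ∈ C.supp := fun i s => hedge _ _ (hadj i s 0)
  let a' : Fin 5 → Fin m → Fin (Fintype.card W) := fun i s => φ ⟨a i s, hmem i s⟩
  have hψa : ∀ i s, ψ (a' i s) = a i s := fun i s => hψφ _ _
  have hinj' : ∀ i s j t, a' i s = a' j t → i = j ∧ s = t := by
    intro i s j t h
    apply hinj
    rw [← hψa i s, ← hψa j t, h]
  have hadj' : ∀ i s t, K2.Adj (a' i s) (a' (i + 1) t) := by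
    intro i s t
    rw [hK2, hψa, hψa]
    exact hadj i s t
  have hmn : m ≤ Fintype.card W := by
    have : Function.Injective (a' 0) := fun s t h => (hinj' _ _ _ _ h).2
    simpa using Fintype.card_le_of_injective _ this
  have hn3 : ¬ K2.Colorable 3 := by
    rintro ⟨f⟩
    apply hK3
    refine ⟨Coloring.mk (fun v => if h : v ∈ C.supp then f (φ ⟨v, h⟩) else 0) ?_⟩
    intro x y hxy
    have hx := hedge x y hxy
    have hy := hedge y x hxy.symm
    simp only [dif_pos hx, dif_pos hy]
    apply f.valid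
    rw [hK2, hψφ, hψφ]
    exact hxy
  have hcr : ∀ e ∈ K2.edgeSet, (K2.deleteEdges {e}).Colorable 3 := by
    intro e
    induction e using Sym2.ind with
    | _ k l =>
      intro he
      have hkl : K.Adj (ψ k) (ψ l) := (hK2 k l).mp he
      obtain ⟨g⟩ := hKc s(ψ k, ψ l) hkl
      refine ⟨Coloring.mk (fun v => g (ψ v)) ?_⟩
      intro x y hxy
      rw [deleteEdges_adj] at hxy
      apply g.valid
      rw [deleteEdges_adj]
      refine ⟨(hK2 x y).mp hxy.1, ?_⟩
      intro hmem
      apply hxy.2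
      rw [Set.mem_singleton_iff] at hmem ⊢
      rw [Sym2.eq_iff] at hmem ⊢
      rcases hmem with ⟨h1, h2⟩ | ⟨h1, h2⟩
      · exact Or.inl ⟨hψ h1, hψ h2⟩
      · exact Or.inr ⟨hψ h1, hψ h2⟩
  refine ⟨Fintype.card W, hmn, hcard, K2, ?_, ?_, hcr, ?_⟩
  · have hc1 : (K.induce C.supp).Connected := C.connected_toSimpleGraph
    exact (Iso.connected_iff (Iso.comap φ.symm (K.induce C.supp))).mpr hc1
  · have h4 : K2.Colorable 4 := by
      have he : s(a' 0 0, a' (0 + 1) 0) ∈ K2.edgeSet := hadj' 0 0 0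
      exact colorable_four K2 _ _ (hcr _ he)
    have := (chromaticNumber_eq_iff_colorable_not_colorable (G := K2) (n := 3)).mpr ⟨h4, hn3⟩
    rw [this]
    norm_num
  · intro H hH
    exact missing K2 H m a' hinj' hadj' hH

end Pool.Agent.H62R3.Crit4
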