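import Mathlib

/-!
# A sparse gadget forcing two non-monochromatic parts in a blow-up of the five-cycle

`G q` is a graph on `10 (2 q + 3) + 3` vertices: five parts `vA i _` of size `2 q + 3`, consecutive
parts completely joined, five paths `vC i _`, the path number `i` matched with the part number `i`,
and a fixed finite gadget on the ends of the paths and three further vertices.
It is not 3-colourable, but deleting any edge between inner vertices of consecutive parts
leaves a 3-colourable graph.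
-/

set_option autoImplicit false

namespace Pool.Agent.H62R3.Crit4

open SimpleGraph

/-- vertices -/
abbrev Vt (q : ℕ) : Type := (Fin 5 × Fin (2 * q + 3)) ⊕ ((Fin 5 × Fin (2 * q + 3)) ⊕ Fin 3)

/-- vertices of the parts -/
def vA (q : ℕ) (i : Fin 5) (s : Fin (2 * q + 3)) : Vt q := Sum.inl (i, s)
/-- vertices of the paths -/
def vC (q : ℕ) (i : Fin 5) (s : Fin (2 * q + 3)) : Vt q := Sum.inr (Sum.inl (i, s))
/-- extra vertices -/
def vX (q : ℕ) (e : Fin 3) : Vt q := Sum.inr (Sum.inr e)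

/-- the thirteen vertices of the finite gadget -/
def term (q : ℕ) : Fin 13 → Vt q :=
  ![vC q 0 0, vC q 0 (Fin.last _), vC q 1 0, vC q 1 (Fin.last _), vC q 2 0, vC q 2 (Fin.last _),
    vC q 3 0, vC q 3 (Fin.last _), vC q 4 0, vC q 4 (Fin.last _), vX q 0, vX q 1, vX q 2]

/-- edges of the finite gadget -/
def EL : List (Fin 13 × Fin 13) :=
  [(10, 2), (10, 6), (10, 8), (3, 7), (3, 8), (6, 9), (11, 0), (11, 5), (11, 8), (1, 5), (1, 9),
    (4, 8), (12, 1), (12, 2), (12, 6), (0, 2), (0, 6)]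

/-- the (directed) edge relation -/
def rel (q : ℕ) (a b : Vt q) : Prop :=
  (∃ i s t, a = vA q i s ∧ b = vA q (i + 1) t) ∨
  (∃ i s, a = vA q i s ∧ b = vC q i s) ∨
  (∃ i s t, a = vC q i s ∧ b = vC q i t ∧ (t : ℕ) = s + 1) ∨
  (∃ e ∈ EL, a = term q e.1 ∧ b = term q e.2)

/-- the graph -/
def G (q : ℕ) : SimpleGraph (Vt q) := SimpleGraph.fromRel (rel q)

theorem card_Vt (q : ℕ) : Fintype.card (Vt q) = 20 * q + 33 := by
  simp [Vt]; ring

/-! ### Finite facts about three colours -/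

theorem k4' : ∀ a b c d : Fin 3,
    ¬ (a ≠ b ∧ a ≠ c ∧ a ≠ d ∧ b ≠ c ∧ b ≠ d ∧ c ≠ d) := by
  decide

theorem k4 (a b c d : Fin 3) (h1 : a ≠ b) (h2 : a ≠ c) (h3 : a ≠ d) (h4 : b ≠ c) (h5 : b ≠ d)
    (h6 : c ≠ d) : False := k4' a b c d ⟨h1, h2, h3, h4, h5, h6⟩

theorem f5_1 : ∀ i : Fin 5, i + 1 ≠ i := by decide
theorem f5_2 : ∀ i : Fin 5, i + 1 + 1 ≠ i := by decide
theorem f5_5 : ∀ i : Fin 5, i + 1 + 1 + 1 + 1 + 1 = i := by decide

theorem alt3 : ∀ α x y z : Fin 3, α ≠ x → α ≠ y → α ≠ z → x ≠ y → y ≠ z → x = z := by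
  decide

theorem c5 : ∀ x y z w m u v : Fin 3, x ≠ y → x ≠ m → y ≠ m → m ≠ z → m ≠ w → z ≠ w →
    z ≠ u → w ≠ u → u ≠ v → v ≠ x → v ≠ y → False := by
  intro x y z w m u v h1 h2 h3 h4 h5 h6 h7 h8 h9 h10 h11
  omega

theorem term_ne (q : ℕ) : ∀ e ∈ EL, term q e.1 ≠ term q e.2 := by
  intro e he
  simp only [EL, List.mem_cons, List.not_mem_nil, or_false] at he
  rcases he with h | h | h | h | h | h | h | h | h | h | h | h | h | h | h | h | h <;>
  · subst h
    simp [term, vC, vX]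

theorem adj_AA (q : ℕ) (i : Fin 5) (s t : Fin (2 * q + 3)) :
    (G q).Adj (vA q i s) (vA q (i + 1) t) := by
  rw [G, fromRel_adj]
  refine ⟨?_, Or.inl (Or.inl ⟨i, s, t, rfl, rfl⟩)⟩
  simp only [vA, ne_eq, Sum.inl.injEq, Prod.mk.injEq, not_and]
  intro h
  exact absurd h (f5_1 i).symm

theorem adj_AC (q : ℕ) (i : Fin 5) (s : Fin (2 * q + 3)) :
    (G q).Adj (vA q i s) (vC q i s) := by
  rw [G, fromRel_adj]
  refine ⟨?_, Or.inl (Or.inr (Or.inl ⟨i, s, rfl, rfl⟩))⟩
  simp [vA, vC]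

theorem adj_CC (q : ℕ) (i : Fin 5) (s t : Fin (2 * q + 3)) (h : (t : ℕ) = s + 1) :
    (G q).Adj (vC q i s) (vC q i t) := by
  rw [G, fromRel_adj]
  refine ⟨?_, Or.inl (Or.inr (Or.inr (Or.inl ⟨i, s, t, rfl, rfl, h⟩)))⟩
  simp only [vC, ne_eq, Sum.inr.injEq, Sum.inl.injEq, Prod.mk.injEq, true_and]
  intro h'
  rw [h'] at h
  omega

theorem adj_E (q : ℕ) (e : Fin 13 × Fin 13) (he : e ∈ EL) :
    (G q).Adj (term q e.1) (term q e.2) := by
  rw [G, fromRel_adj]
  exact ⟨term_ne q e he, Or.inl (Or.inr (Or.inr (Or.inr ⟨e, he, rfl, rfl⟩)))⟩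

/-- `G q` is not 3-colourable -/
theorem not_colorable (q : ℕ) : ¬ (G q).Colorable 3 := by
  rintro ⟨c⟩
  have hAA : ∀ i s t, c (vA q i s) ≠ c (vA q (i + 1) t) := fun i s t => c.valid (adj_AA q i s t)
  have hAC : ∀ i s, c (vA q i s) ≠ c (vC q i s) := fun i s => c.valid (adj_AC q i s)
  have hCC : ∀ (i : Fin 5) (s t : Fin (2 * q + 3)), (t : ℕ) = s + 1 →
      c (vC q i s) ≠ c (vC q i t) :=
    fun i s t h => c.valid (adj_CC q i s t h)
  have hE : ∀ e ∈ EL, c (term q e.1) ≠ c (term q e.2) := fun e he => c.valid (adj_E q e he)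
  -- monochromatic parts
  have mono_pq : ∀ i, (∀ s t, c (vA q i s) = c (vA q i t)) →
      c (vC q i 0) = c (vC q i (Fin.last _)) := by
    intro i hm
    have key : ∀ k : ℕ, ∀ h : 2 * k < 2 * q + 3, c (vC q i ⟨2 * k, h⟩) = c (vC q i 0) := by
      intro k
      induction k with
      | zero => intro h; rfl
      | succ k ih =>
        intro h
        rw [← ih (by omega)]
        have h0 : c (vA q i 0) ≠ c (vC q i ⟨2 * k, by omega⟩) := by
          rw [hm 0 ⟨2 * k, by omega⟩]; exact hAC _ _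
        have h1 : c (vA q i 0) ≠ c (vC q i ⟨2 * k + 1, by omega⟩) := by
          rw [hm 0 ⟨2 * k + 1, by omega⟩]; exact hAC _ _
        have h2 : c (vA q i 0) ≠ c (vC q i ⟨2 * (k + 1), h⟩) := by
          rw [hm 0 ⟨2 * (k + 1), h⟩]; exact hAC _ _
        exact (alt3 _ _ _ _ h0 h1 h2 (hCC i ⟨2 * k, by omega⟩ ⟨2 * k + 1, by omega⟩ rfl)
          (hCC i ⟨2 * k + 1, by omega⟩ ⟨2 * (k + 1), h⟩ (by show 2 * (k + 1) = 2 * k + 1 + 1; ring))).symm
    have := key (q + 1) (by omega)
    rw [← this]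
    congr 2
  have adj : ∀ i, (∀ s t, c (vA q i s) = c (vA q i t)) ∨
      (∀ s t, c (vA q (i + 1) s) = c (vA q (i + 1) t)) := by
    intro i
    by_contra hcon
    push Not at hcon
    obtain ⟨⟨s, t, hst⟩, ⟨s', t', hst'⟩⟩ := hcon
    exact k4 _ _ _ _ hst (hAA i s s') (hAA i s t') (hAA i t s') (hAA i t t') hst'
  have dist2 : ∀ i, (∀ s t, c (vA q i s) = c (vA q i t)) ∨
      (∀ s t, c (vA q (i + 1 + 1) s) = c (vA q (i + 1 + 1) t)) := by
    intro i
    by_contra hcon
    push Not at hcon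
    obtain ⟨⟨s, t, hst⟩, ⟨s', t', hst'⟩⟩ := hcon
    have h5 : i + 1 + 1 + 1 + 1 + 1 = i := f5_5 i
    have e1 : c (vA q (i + 1 + 1 + 1 + 1) 0) ≠ c (vA q i s) := by
      have := hAA (i + 1 + 1 + 1 + 1) 0 s
      rwa [h5] at this
    have e2 : c (vA q (i + 1 + 1 + 1 + 1) 0) ≠ c (vA q i t) := by
      have := hAA (i + 1 + 1 + 1 + 1) 0 t
      rwa [h5] at this
    exact c5 _ _ _ _ _ _ _ hst (hAA i s 0) (hAA i t 0) (hAA (i + 1) 0 s') (hAA (i + 1) 0 t') hst'
      (hAA (i + 1 + 1) s' 0) (hAA (i + 1 + 1) t' 0) (hAA (i + 1 + 1 + 1) 0 0) e1 e2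
  -- clauses
  have t0 : term q 0 = vC q 0 0 := rfl
  have t1 : term q 1 = vC q 0 (Fin.last _) := rfl
  have t2 : term q 2 = vC q 1 0 := rfl
  have t3 : term q 3 = vC q 1 (Fin.last _) := rfl
  have t4 : term q 4 = vC q 2 0 := rfl
  have t5 : term q 5 = vC q 2 (Fin.last _) := rfl
  have t6 : term q 6 = vC q 3 0 := rfl
  have t7 : term q 7 = vC q 3 (Fin.last _) := rfl
  have t8 : term q 8 = vC q 4 0 := rfl
  have t9 : term q 9 = vC q 4 (Fin.last _) := rfl
  have cl1 : (∀ s t, c (vA q 1 s) = c (vA q 1 t)) → (∀ s t, c (vA q 3 s) = c (vA q 3 t)) →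
      (∀ s t, c (vA q 4 s) = c (vA q 4 t)) → False := by
    intro m1 m3 m4
    have e1 := mono_pq 1 m1
    have e3 := mono_pq 3 m3
    have e4 := mono_pq 4 m4
    rw [← t2, ← t3] at e1
    rw [← t6, ← t7] at e3
    rw [← t8, ← t9] at e4
    refine k4 (c (term q 10)) (c (term q 2)) (c (term q 6)) (c (term q 8))
      (hE (10, 2) (by decide)) (hE (10, 6) (by decide)) (hE (10, 8) (by decide)) ?_ ?_ ?_
    · rw [e1, e3]; exact hE (3, 7) (by decide)
    · rw [e1]; exact hE (3, 8) (by decide)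
    · rw [e4]; exact hE (6, 9) (by decide)
  have cl2 : (∀ s t, c (vA q 0 s) = c (vA q 0 t)) → (∀ s t, c (vA q 2 s) = c (vA q 2 t)) →
      (∀ s t, c (vA q 4 s) = c (vA q 4 t)) → False := by
    intro m1 m3 m4
    have e0 := mono_pq 0 m1
    have e2 := mono_pq 2 m3
    have e4 := mono_pq 4 m4
    rw [← t0, ← t1] at e0
    rw [← t4, ← t5] at e2
    rw [← t8, ← t9] at e4
    refine k4 (c (term q 11)) (c (term q 0)) (c (term q 4)) (c (term q 8))
      (hE (11, 0) (by decide)) ?_ (hE (11, 8) (by decide)) ?_ ?_ (hE (4, 8) (by decide))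
    · rw [e2]; exact hE (11, 5) (by decide)
    · rw [e0, e2]; exact hE (1, 5) (by decide)
    · rw [e0, e4]; exact hE (1, 9) (by decide)
  have cl3 : (∀ s t, c (vA q 0 s) = c (vA q 0 t)) → (∀ s t, c (vA q 1 s) = c (vA q 1 t)) →
      (∀ s t, c (vA q 3 s) = c (vA q 3 t)) → False := by
    intro m1 m3 m4
    have e0 := mono_pq 0 m1
    have e1 := mono_pq 1 m3
    have e3 := mono_pq 3 m4
    rw [← t0, ← t1] at e0
    rw [← t2, ← t3] at e1
    rw [← t6, ← t7] at e3
    refine k4 (c (term q 12)) (c (term q 1)) (c (term q 2)) (c (term q 6))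
      (hE (12, 1) (by decide)) (hE (12, 2) (by decide)) (hE (12, 6) (by decide)) ?_ ?_ ?_
    · rw [← e0]; exact hE (0, 2) (by decide)
    · rw [← e0]; exact hE (0, 6) (by decide)
    · rw [e1, e3]; exact hE (3, 7) (by decide)
  have a01 := adj 0
  have a12 := adj 1
  have a23 := adj 2
  have a34 := adj 3
  have a40 := adj 4
  have d02 := dist2 0
  have d13 := dist2 1
  have d24 := dist2 2
  have d30 := dist2 3
  have d41 := dist2 4
  simp only [show (0 : Fin 5) + 1 = 1 from rfl, show (1 : Fin 5) + 1 = 2 from rfl,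
    show (2 : Fin 5) + 1 = 3 from rfl, show (3 : Fin 5) + 1 = 4 from rfl,
    show (4 : Fin 5) + 1 = 0 from rfl] at a01 a12 a23 a34 a40 d02 d13 d24 d30 d41
  by_cases m1 : ∀ s t, c (vA q 1 s) = c (vA q 1 t)
  · by_cases m3 : ∀ s t, c (vA q 3 s) = c (vA q 3 t)
    · by_cases m4 : ∀ s t, c (vA q 4 s) = c (vA q 4 t)
      · exact cl1 m1 m3 m4
      · exact cl3 (a40.resolve_left m4) m1 m3
    · exact cl2 (d30.resolve_left m3) (a23.resolve_right m3) (a34.resolve_left m3)
  · exact cl2 (a01.resolve_right m1) (a12.resolve_left m1) (d41.resolve_right m1)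

/-! ### Colourings after deletion of an edge -/

/-- majority colour of the part `a` when an edge between parts `i` and `i+1` is deleted -/
def M (i a : Fin 5) : Fin 3 := (![1, 2, 1, 0, 2] : Fin 5 → Fin 3) (a - i)

/-- colours of the finite gadget -/
def ter : Fin 5 → Fin 13 → Fin 3 :=
  ![![0, 2, 1, 0, 0, 0, 2, 2, 1, 1, 0, 2, 0], ![0, 0, 2, 0, 0, 1, 2, 2, 1, 1, 0, 2, 1],
    ![1, 1, 0, 0, 0, 2, 0, 1, 2, 2, 1, 0, 2], ![0, 0, 2, 2, 1, 1, 2, 0, 0, 1, 1, 2, 1],
    ![1, 0, 2, 2, 1, 1, 0, 0, 0, 2, 1, 2, 1]]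

/-- colour of the first vertex of path `a` -/
def pt (i a : Fin 5) : Fin 3 := ter i ((![0, 2, 4, 6, 8] : Fin 5 → Fin 13) a)
/-- colour of the last vertex of path `a` -/
def qt (i a : Fin 5) : Fin 3 := ter i ((![1, 3, 5, 7, 9] : Fin 5 → Fin 13) a)

/-- the third colour -/
def third (a b : Fin 3) : Fin 3 := -(a + b)

theorem third_ne : ∀ m p : Fin 3, p ≠ m → third m p ≠ m ∧ third m p ≠ p := by decide

/-- alternating colours -/
def alt (m p : Fin 3) (s : ℕ) : Fin 3 := if s % 2 = 0 then p else third m p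

theorem alt_ne (m p : Fin 3) (h : p ≠ m) (s : ℕ) : alt m p s ≠ m := by
  unfold alt
  split_ifs
  · exact h
  · exact (third_ne m p h).1

theorem alt_succ (m p : Fin 3) (h : p ≠ m) (s : ℕ) : alt m p s ≠ alt m p (s + 1) := by
  unfold alt
  have := (third_ne m p h).2
  split_ifs with h1 h2 h2
  · omega
  · exact this.symm
  · exact this
  · omega

/-- colours of a path -/
def pcol (m p p' : Fin 3) (dv s : ℕ) : Fin 3 :=
  if s + 1 = dv then m else if s + 1 < dv then alt m p s else alt m p' s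

theorem pcol_ne (m p p' : Fin 3) (h : p ≠ m) (h' : p' ≠ m) (dv s : ℕ) (hs : s + 1 ≠ dv) :
    pcol m p p' dv s ≠ m := by
  unfold pcol
  rw [if_neg hs]
  split_ifs
  · exact alt_ne m p h s
  · exact alt_ne m p' h' s

theorem pcol_succ (m p p' : Fin 3) (h : p ≠ m) (h' : p' ≠ m) (dv s : ℕ) :
    pcol m p p' dv s ≠ pcol m p p' dv (s + 1) := by
  by_cases h1 : s + 1 = dv
  · have : pcol m p p' dv (s + 1) ≠ m := pcol_ne m p p' h h' dv (s + 1) (by omega)
    have e : pcol m p p' dv s = m := by simp [pcol, h1]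
    rw [e]; exact this.symm
  · by_cases h2 : s + 1 + 1 = dv
    · have : pcol m p p' dv s ≠ m := pcol_ne m p p' h h' dv s (by omega)
      have e : pcol m p p' dv (s + 1) = m := by simp [pcol, h2]
      rw [e]; exact this
    · unfold pcol
      rw [if_neg h1, if_neg h2]
      by_cases h3 : s + 1 < dv
      · rw [if_pos h3, if_pos (by omega)]
        exact alt_succ m p h s
      · rw [if_neg h3, if_neg (by omega)]
        exact alt_succ m p' h' s

/-- position of the deviating vertex (plus one) in part `a`, zero if there is none -/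
def dv (i : Fin 5) (j k : ℕ) (a : Fin 5) : ℕ :=
  if a = i then j + 1 else if a = i + 1 then k + 1 else 0

/-- the colouring -/
def col (q : ℕ) (i : Fin 5) (j k : ℕ) : Vt q → Fin 3
  | Sum.inl (a, s) => if (s : ℕ) + 1 = dv i j k a then 0 else M i a
  | Sum.inr (Sum.inl (a, s)) => pcol (M i a) (pt i a) (qt i a) (dv i j k a) s
  | Sum.inr (Sum.inr e) => ter i ((![10, 11, 12] : Fin 3 → Fin 13) e)

theorem pt_ne : ∀ i a, pt i a ≠ M i a := by decide
theorem qt_ne : ∀ i a, qt i a ≠ M i a := by decide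
theorem pt_qt : ∀ i a, a ≠ i → a ≠ i + 1 → pt i a = qt i a := by decide
theorem M_succ : ∀ i a, M i a ≠ M i (a + 1) := by decide
theorem M_i : ∀ i, M i i ≠ 0 ∧ M i (i + 1) ≠ 0 ∧ M i (i + 1 + 1) ≠ 0 := by decide
theorem M_prev : ∀ i a, a + 1 = i → M i a ≠ 0 := by decide
theorem ter_E (i : Fin 5) (e : Fin 13 × Fin 13) (he : e ∈ EL) : ter i e.1 ≠ ter i e.2 := by
  have h : ∀ i : Fin 5, EL.all (fun e => decide (ter i e.1 ≠ ter i e.2)) = true := by decide
  have := List.all_eq_true.mp (h i) e he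
  simpa using this

theorem col_first (q : ℕ) (i : Fin 5) (j k : ℕ) (hj : 0 < j) (hk : 0 < k) (a : Fin 5) :
    col q i j k (vC q a 0) = pt i a := by
  simp only [col, vC, pcol, Fin.val_zero, alt]
  unfold dv
  by_cases h1 : a = i
  · rw [if_pos h1, if_neg (by omega), if_pos (by omega)]; simp
  · by_cases h2 : a = i + 1
    · rw [if_neg h1, if_pos h2, if_neg (by omega), if_pos (by omega)]; simp
    · rw [if_neg h1, if_neg h2, if_neg (by omega), if_neg (by omega)]
      simp [pt_qt i a h1 h2]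

theorem col_last (q : ℕ) (i : Fin 5) (j k : ℕ) (hj : j < 2 * q + 2) (hk : k < 2 * q + 2)
    (a : Fin 5) : col q i j k (vC q a (Fin.last _)) = qt i a := by
  simp only [col, vC, pcol, Fin.val_last, alt]
  have h0 : (2 * q + 2) % 2 = 0 := by omega
  unfold dv
  by_cases h1 : a = i
  · rw [if_pos h1, if_neg (by omega), if_neg (by omega)]; simp [h0]
  · by_cases h2 : a = i + 1
    · rw [if_neg h1, if_pos h2, if_neg (by omega), if_neg (by omega)]; simp [h0]
    · rw [if_neg h1, if_neg h2, if_neg (by omega), if_neg (by omega)]; simp [h0]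

theorem col_term (q : ℕ) (i : Fin 5) (j k : ℕ) (hj : 0 < j) (hk : 0 < k) (hj' : j < 2 * q + 2)
    (hk' : k < 2 * q + 2) (n : Fin 13) : col q i j k (term q n) = ter i n := by
  fin_cases n
  · exact col_first q i j k hj hk 0
  · exact col_last q i j k hj' hk' 0
  · exact col_first q i j k hj hk 1
  · exact col_last q i j k hj' hk' 1
  · exact col_first q i j k hj hk 2
  · exact col_last q i j k hj' hk' 2
  · exact col_first q i j k hj hk 3
  · exact col_last q i j k hj' hk' 3
  · exact col_first q i j k hj hk 4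
  · exact col_last q i j k hj' hk' 4
  · rfl
  · rfl
  · rfl

theorem col_rel (q : ℕ) (i : Fin 5) (j k : Fin (2 * q + 3)) (hj : 0 < (j : ℕ)) (hk : 0 < (k : ℕ))
    (hj' : (j : ℕ) < 2 * q + 2) (hk' : (k : ℕ) < 2 * q + 2) (a b : Vt q) (hr : rel q a b)
    (hne : s(a, b) ≠ s(vA q i j, vA q (i + 1) k)) : col q i j k a ≠ col q i j k b := by
  rcases hr with ⟨a, s, t, rfl, rfl⟩ | ⟨a, s, rfl, rfl⟩ | ⟨a, s, t, rfl, rfl, hst⟩ |
    ⟨e, he, rfl, rfl⟩
  · -- parts
    simp only [col, vA]
    by_cases h1 : (s : ℕ) + 1 = dv i j k a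
    · rw [if_pos h1]
      by_cases h2 : (t : ℕ) + 1 = dv i j k (a + 1)
      · exfalso
        unfold dv at h1 h2
        by_cases ha : a = i
        · subst ha
          have e0 : a + 1 ≠ a := f5_1 a
          rw [if_pos rfl] at h1
          rw [if_neg e0, if_pos rfl] at h2
          apply hne
          have e1 : s = j := Fin.ext (by omega)
          have e2 : t = k := Fin.ext (by omega)
          rw [e1, e2]
        · rw [if_neg ha] at h1
          by_cases hb : a = i + 1
          · subst hb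
            have e0 : i + 1 + 1 ≠ i := f5_2 i
            have e1 : i + 1 + 1 ≠ i + 1 := f5_1 (i + 1)
            rw [if_neg e0, if_neg e1] at h2
            omega
          · rw [if_neg hb] at h1
            omega
      · rw [if_neg h2]
        unfold dv at h1
        by_cases ha : a = i
        · subst ha; exact (M_i a).2.1.symm
        · by_cases hb : a = i + 1
          · subst hb; exact (M_i i).2.2.symm
          · rw [if_neg ha, if_neg hb] at h1; omega
    · rw [if_neg h1]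
      by_cases h2 : (t : ℕ) + 1 = dv i j k (a + 1)
      · rw [if_pos h2]
        unfold dv at h2
        by_cases ha : a + 1 = i
        · exact M_prev i a ha
        · by_cases hb : a + 1 = i + 1
          · have hb' : a = i := add_right_cancel hb
            subst hb'; exact (M_i a).1
          · rw [if_neg ha, if_neg hb] at h2; omega
      · rw [if_neg h2]; exact M_succ i a
  · -- matching
    simp only [col, vA, vC]
    by_cases h1 : (s : ℕ) + 1 = dv i j k a
    · rw [if_pos h1]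
      have : pcol (M i a) (pt i a) (qt i a) (dv i j k a) s = M i a := by simp [pcol, h1]
      rw [this]
      unfold dv at h1
      by_cases ha : a = i
      · subst ha; exact (M_i a).1.symm
      · by_cases hb : a = i + 1
        · subst hb; exact (M_i i).2.1.symm
        · rw [if_neg ha, if_neg hb] at h1; omega
    · rw [if_neg h1]
      exact (pcol_ne _ _ _ (pt_ne i a) (qt_ne i a) _ _ h1).symm
  · -- paths
    simp only [col, vC]
    rw [hst]
    exact pcol_succ _ _ _ (pt_ne i a) (qt_ne i a) _ _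
  · -- gadget
    rw [col_term q i j k hj hk hj' hk', col_term q i j k hj hk hj' hk']
    exact ter_E i e he

/-- deleting an edge between inner vertices of consecutive parts leaves a 3-colourable graph -/
theorem delete_colorable (q : ℕ) (i : Fin 5) (j k : Fin (2 * q + 3)) (hj : 0 < (j : ℕ))
    (hk : 0 < (k : ℕ)) (hj' : (j : ℕ) < 2 * q + 2) (hk' : (k : ℕ) < 2 * q + 2) :
    ((G q).deleteEdges {s(vA q i j, vA q (i + 1) k)}).Colorable 3 := by
  refine ⟨Coloring.mk (col q i j k) ?_⟩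
  intro a b hab
  rw [deleteEdges_adj, G, fromRel_adj] at hab
  obtain ⟨⟨_, hr⟩, hne⟩ := hab
  rw [Set.mem_singleton_iff] at hne
  rcases hr with hr | hr
  · exact col_rel q i j k hj hk hj' hk' a b hr hne
  · refine (col_rel q i j k hj hk hj' hk' b a hr ?_).symm
    rwa [Sym2.eq_swap]

end Pool.Agent.H62R3.Crit4
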