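import Pool.Agent.H62R3.DiracDef

/-!
# The base graph and its joins with complete graphs
-/

set_option autoImplicit false

namespace Pool.Agent.H62R3.Dirac

open SimpleGraph

/-! ### General facts on critical graphs -/

theorem colorable_succ {V : Type} (K : SimpleGraph V) (n : ℕ) (x y : V)
    (h : (K.deleteEdges {s(x, y)}).Colorable n) : K.Colorable (n + 1) := by
  classical
  obtain ⟨f⟩ := h
  refine ⟨Coloring.mk (fun v => if v = x then Fin.last n else (f v).castSucc) ?_⟩
  intro a b hab
  by_cases ha : a = x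
  · have hb : b ≠ x := by rintro rfl; exact hab.ne ha
    simp only [if_pos ha, if_neg hb]
    exact (Fin.castSucc_lt_last _).ne'
  · by_cases hb : b = x
    · simp only [if_neg ha, if_pos hb]
      exact (Fin.castSucc_lt_last _).ne
    · simp only [if_neg ha, if_neg hb]
      intro h
      have h' := Fin.castSucc_injective _ h
      revert h'
      apply f.valid
      rw [deleteEdges_adj]
      refine ⟨hab, ?_⟩
      rw [Set.mem_singleton_iff]
      intro h
      rw [Sym2.eq_iff] at h
      rcases h with ⟨h, _⟩ | ⟨_, h⟩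
      · exact ha h
      · exact hb h

theorem isCritical_of {V : Type} [Nonempty V] (G : SimpleGraph V) (n : ℕ) (h1 : ¬ G.Colorable n)
    (h2 : ∀ x y, G.Adj x y → (G.deleteEdges {s(x, y)}).Colorable n)
    (h3 : ∀ v, ∃ w, G.Adj v w) : IsCritical (n + 1) G := by
  classical
  constructor
  · obtain ⟨v⟩ : Nonempty V := inferInstance
    obtain ⟨w, hw⟩ := h3 v
    have h4 : G.Colorable (n + 1) := colorable_succ G n v w (h2 v w hw)
    have := (chromaticNumber_eq_iff_colorable_not_colorable (G := G) (n := n)).mpr ⟨h4, h1⟩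
    rw [this]
    push_cast
    rfl
  · intro G' hG'
    have hex : ∃ x y, G.Adj x y ∧ ¬ G'.Adj x y := by
      by_contra hcon
      push Not at hcon
      apply hG'
      refine SimpleGraph.Subgraph.ext ?_ ?_
      · ext v
        obtain ⟨w, hw⟩ := h3 v
        simp only [Subgraph.verts_top, Set.mem_univ, iff_true]
        exact G'.edge_vert (hcon v w hw)
      · ext v w
        simp only [Subgraph.top_adj]
        exact ⟨fun h => G'.adj_sub h, fun h => hcon v w h⟩
    obtain ⟨x, y, hxy, hxy'⟩ := hex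
    obtain ⟨f⟩ := h2 x y hxy
    have hc : G'.coe.Colorable n := by
      refine ⟨Coloring.mk (fun v => f v.1) ?_⟩
      intro a b hab
      apply f.valid
      rw [deleteEdges_adj]
      have hab' : G'.Adj a.1 b.1 := hab
      refine ⟨G'.adj_sub hab', ?_⟩
      rw [Set.mem_singleton_iff]
      intro h
      rw [Sym2.eq_iff] at h
      rcases h with ⟨h, h'⟩ | ⟨h, h'⟩
      · rw [h, h'] at hab'; exact hxy' hab'
      · rw [h, h'] at hab'; exact hxy' hab'.symm
    refine lt_of_le_of_lt hc.chromaticNumber_le ?_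
    exact_mod_cast Nat.lt_succ_self n

theorem delete_of_critical {V : Type} (G : SimpleGraph V) (n : ℕ) (h : IsCritical (n + 1) G)
    (x y : V) (hxy : G.Adj x y) : (G.deleteEdges {s(x, y)}).Colorable n := by
  let G' : G.Subgraph := SimpleGraph.toSubgraph (G.deleteEdges {s(x, y)}) (deleteEdges_le _)
  have hne : G' ≠ ⊤ := by
    intro h'
    have h1 : (⊤ : G.Subgraph).Adj x y := hxy
    rw [← h'] at h1
    have h2 : (G.deleteEdges {s(x, y)}).Adj x y := h1
    rw [deleteEdges_adj] at h2
    exact h2.2 rfl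
  have hlt := h.2 G' hne
  have hle : G'.coe.chromaticNumber ≤ n := by
    have : G'.coe.chromaticNumber < (n : ℕ∞) + 1 := by exact_mod_cast hlt
    exact Order.le_of_lt_add_one this
  rw [chromaticNumber_le_iff_colorable] at hle
  obtain ⟨f⟩ := hle
  refine ⟨Coloring.mk (fun v => f ⟨v, trivial⟩) ?_⟩
  intro a b hab
  apply f.valid
  exact hab

/-! ### The base graph -/

/-- edges of the base graph -/
def E : List (Fin 10 × Fin 10) :=
  [(0, 1), (0, 2), (0, 3), (0, 4), (1, 2), (1, 4), (1, 5), (1, 6), (2, 6), (2, 7), (2, 8), (2, 9),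
    (3, 4), (3, 5), (3, 7), (3, 8), (3, 9), (4, 5), (4, 6), (4, 7), (5, 6), (5, 8), (5, 9), (6, 7),
    (8, 9)]

/-- the base graph: a 5-critical graph with 10 vertices and 25 edges -/
def B : SimpleGraph (Fin 10) where
  Adj a b := (a, b) ∈ E ∨ (b, a) ∈ E
  symm := ⟨fun _ _ h => h.symm⟩
  loopless := ⟨by decide⟩

instance : DecidableRel B.Adj := fun a b => by unfold B; infer_instance

/-- exhaustive search -/
def chk : Bool :=
  (List.finRange 4).all fun c0 =>
  (List.finRange 4).all fun c1 => (c0 == c1) || (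
  (List.finRange 4).all fun c2 => (c0 == c2) || (
  (List.finRange 4).all fun c4 => (c0 == c4) || ( (c1 == c4) || (
  (List.finRange 4).all fun c5 => (c1 == c5) || ( (c4 == c5) || (
  (List.finRange 4).all fun c6 => (c1 == c6) || ( (c2 == c6) || ( (c4 == c6) || ( (c5 == c6) || (
  (List.finRange 4).all fun c7 => (c2 == c7) || ( (c4 == c7) || ( (c6 == c7) || (
  (List.finRange 4).all fun c3 => (c4 == c3) || ( (c5 == c3) || ( (c7 == c3) || (
  (List.finRange 4).all fun c8 => (c2 == c8) || ( (c5 == c8) || ( (c3 == c8) || (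
  (List.finRange 4).all fun c9 => (c2 == c9) || ( (c5 == c9) || ( (c3 == c9) || ( (c8 == c9) || (
    (c1 == c2 && c3 == c1) || (c1 != c2 && c3 == c0))))))))))))))))))))))))

theorem chk_true : chk = true := by decide +kernel

/-- In every proper 4-colouring of the base graph minus the edges `12` and `03`, either `1` and `2`
have the same colour and `3` has it too, or they have different colours and `3` has the colour
of `0`. -/
theorem P1 (c : Fin 10 → Fin 4)
    (h : ∀ a b, B.Adj a b → s(a, b) ≠ s(1, 2) → s(a, b) ≠ s(0, 3) → c a ≠ c b) :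
    (c 1 = c 2 ∧ c 3 = c 1) ∨ (c 1 ≠ c 2 ∧ c 3 = c 0) := by
  have h0 := chk_true
  simp only [chk, List.all_eq_true, List.mem_finRange, true_implies, Bool.or_eq_true, beq_iff_eq,
    Bool.and_eq_true, bne_iff_ne] at h0
  have k := h0 (c 0)
  replace k := k (c 1)
  replace k := k.resolve_left (h 0 1 (by decide) (by decide) (by decide))
  replace k := k (c 2)
  replace k := k.resolve_left (h 0 2 (by decide) (by decide) (by decide))
  replace k := k (c 4)
  replace k := k.resolve_left (h 0 4 (by decide) (by decide) (by decide))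
  replace k := k.resolve_left (h 1 4 (by decide) (by decide) (by decide))
  replace k := k (c 5)
  replace k := k.resolve_left (h 1 5 (by decide) (by decide) (by decide))
  replace k := k.resolve_left (h 4 5 (by decide) (by decide) (by decide))
  replace k := k (c 6)
  replace k := k.resolve_left (h 1 6 (by decide) (by decide) (by decide))
  replace k := k.resolve_left (h 2 6 (by decide) (by decide) (by decide))
  replace k := k.resolve_left (h 4 6 (by decide) (by decide) (by decide))
  replace k := k.resolve_left (h 5 6 (by decide) (by decide) (by decide))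
  replace k := k (c 7)
  replace k := k.resolve_left (h 2 7 (by decide) (by decide) (by decide))
  replace k := k.resolve_left (h 4 7 (by decide) (by decide) (by decide))
  replace k := k.resolve_left (h 6 7 (by decide) (by decide) (by decide))
  replace k := k (c 3)
  replace k := k.resolve_left (h 4 3 (by decide) (by decide) (by decide))
  replace k := k.resolve_left (h 5 3 (by decide) (by decide) (by decide))
  replace k := k.resolve_left (h 7 3 (by decide) (by decide) (by decide))
  replace k := k (c 8)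
  replace k := k.resolve_left (h 2 8 (by decide) (by decide) (by decide))
  replace k := k.resolve_left (h 5 8 (by decide) (by decide) (by decide))
  replace k := k.resolve_left (h 3 8 (by decide) (by decide) (by decide))
  replace k := k (c 9)
  replace k := k.resolve_left (h 2 9 (by decide) (by decide) (by decide))
  replace k := k.resolve_left (h 5 9 (by decide) (by decide) (by decide))
  replace k := k.resolve_left (h 3 9 (by decide) (by decide) (by decide))
  replace k := k.resolve_left (h 8 9 (by decide) (by decide) (by decide))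
  exact k

/-- colourings of the edge-deleted base graphs -/
def colE : List ((Fin 10 × Fin 10) × (Fin 10 → Fin 4)) := [
  ((0, 1), ![0, 0, 1, 3, 2, 1, 3, 0, 0, 2]),
  ((0, 2), ![0, 1, 0, 3, 2, 0, 3, 1, 1, 2]),
  ((0, 3), ![0, 1, 2, 0, 3, 2, 0, 1, 1, 3]),
  ((0, 4), ![0, 1, 2, 3, 0, 2, 3, 1, 0, 1]),
  ((1, 2), ![0, 1, 1, 1, 2, 0, 3, 0, 2, 3]),
  ((1, 4), ![0, 1, 2, 2, 1, 0, 3, 0, 1, 3]),
  ((1, 5), ![0, 1, 2, 2, 3, 1, 0, 1, 0, 3]),
  ((1, 6), ![0, 1, 2, 2, 3, 0, 1, 0, 1, 3]),
  ((2, 6), ![0, 1, 2, 2, 3, 0, 2, 0, 1, 3]),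
  ((2, 7), ![0, 1, 2, 1, 3, 2, 0, 2, 0, 3]),
  ((2, 8), ![0, 1, 2, 1, 2, 0, 3, 0, 2, 3]),
  ((2, 9), ![0, 1, 2, 1, 2, 0, 3, 0, 3, 2]),
  ((3, 4), ![0, 1, 2, 2, 2, 0, 3, 0, 1, 3]),
  ((3, 5), ![0, 1, 2, 3, 2, 3, 0, 1, 0, 1]),
  ((3, 7), ![0, 1, 2, 1, 3, 2, 0, 1, 0, 3]),
  ((3, 8), ![0, 1, 2, 1, 2, 0, 3, 0, 1, 3]),
  ((3, 9), ![0, 1, 2, 1, 2, 0, 3, 0, 3, 1]),
  ((4, 5), ![0, 1, 2, 3, 2, 2, 0, 1, 0, 1]),
  ((4, 6), ![0, 1, 2, 2, 3, 0, 3, 0, 1, 3]),
  ((4, 7), ![0, 1, 2, 1, 3, 2, 0, 3, 0, 3]),
  ((5, 6), ![0, 1, 2, 2, 3, 0, 0, 1, 1, 3]),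
  ((5, 8), ![0, 1, 2, 1, 2, 0, 3, 0, 0, 3]),
  ((5, 9), ![0, 1, 2, 1, 2, 0, 3, 0, 3, 0]),
  ((6, 7), ![0, 1, 2, 1, 3, 2, 0, 0, 0, 3]),
  ((8, 9), ![0, 1, 2, 1, 2, 0, 3, 0, 3, 3])]

theorem colE_spec : ∀ p ∈ colE, ∀ e ∈ E, e ≠ p.1 → p.2 e.1 ≠ p.2 e.2 := by
  have h : colE.all (fun p => E.all (fun e => e = p.1 || p.2 e.1 ≠ p.2 e.2)) = true := by
    decide +kernel
  intro p hp e he hne
  have h1 := List.all_eq_true.mp (List.all_eq_true.mp h p hp) e he
  simp only [Bool.or_eq_true, decide_eq_true_eq] at h1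
  rcases h1 with h1 | h1
  · exact absurd h1 hne
  · exact h1

theorem colE_cover : ∀ e ∈ E, ∃ p ∈ colE, p.1 = e := by
  have h : E.all (fun e => colE.any (fun p => p.1 = e)) = true := by decide +kernel
  intro e he
  have h1 := List.all_eq_true.mp h e he
  rw [List.any_eq_true] at h1
  obtain ⟨p, hp, hp'⟩ := h1
  exact ⟨p, hp, by simpa using hp'⟩

/-- the base graph minus an edge is 4-colourable -/
theorem B_delete (x y : Fin 10) (hxy : B.Adj x y) :
    ∃ f : Fin 10 → Fin 4, ∀ a b, B.Adj a b → s(a, b) ≠ s(x, y) → f a ≠ f b := by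
  have key : ∀ x y : Fin 10, (x, y) ∈ E →
      ∃ f : Fin 10 → Fin 4, ∀ a b, B.Adj a b → s(a, b) ≠ s(x, y) → f a ≠ f b := by
    intro x y hxy
    obtain ⟨p, hp, hpe⟩ := colE_cover _ hxy
    refine ⟨p.2, ?_⟩
    intro a b hab hne
    rcases hab with hab | hab
    · refine colE_spec p hp (a, b) hab ?_
      rw [hpe]; intro h
      rw [Prod.mk.injEq] at h
      apply hne; rw [h.1, h.2]
    · refine (colE_spec p hp (b, a) hab ?_).symm
      rw [hpe]; intro h
      rw [Prod.mk.injEq] at h
      apply hne; rw [h.1, h.2, Sym2.eq_swap]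
  rcases hxy with h | h
  · exact key x y h
  · obtain ⟨f, hf⟩ := key y x h
    refine ⟨f, fun a b hab hne => hf a b hab ?_⟩
    rwa [Sym2.eq_swap (a := y)]

theorem B_nbr : ∀ x : Fin 10, ∃ y, B.Adj x y := by decide

/-! ### Joins with complete graphs -/

/-- the join of the base graph with the complete graph on `m` vertices -/
def JG (m : ℕ) : SimpleGraph (Fin 10 ⊕ Fin m) where
  Adj p q := match p, q with
    | Sum.inl a, Sum.inl b => B.Adj a b
    | Sum.inl _, Sum.inr _ => True
    | Sum.inr _, Sum.inl _ => True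
    | Sum.inr z, Sum.inr w => z ≠ w
  symm := ⟨by
    rintro (a | a) (b | b) h
    · exact SimpleGraph.Adj.symm (G := B) h
    · trivial
    · trivial
    · exact h.symm⟩
  loopless := ⟨by
    rintro (a | a) h
    · exact SimpleGraph.irrefl B h
    · exact h rfl⟩

theorem JG_ll (m : ℕ) (a b : Fin 10) : (JG m).Adj (Sum.inl a) (Sum.inl b) ↔ B.Adj a b := Iff.rfl
theorem JG_lr (m : ℕ) (a : Fin 10) (z : Fin m) : (JG m).Adj (Sum.inl a) (Sum.inr z) := trivial
theorem JG_rl (m : ℕ) (a : Fin 10) (z : Fin m) : (JG m).Adj (Sum.inr z) (Sum.inl a) := trivial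
theorem JG_rr (m : ℕ) (z w : Fin m) : (JG m).Adj (Sum.inr z) (Sum.inr w) ↔ z ≠ w := Iff.rfl

/-- the forcing property for the join -/
theorem P2 (m : ℕ) (c : Fin 10 ⊕ Fin m → Fin (m + 4))
    (h : ∀ p q, (JG m).Adj p q → s(p, q) ≠ s(Sum.inl 1, Sum.inl 2) →
      s(p, q) ≠ s(Sum.inl 0, Sum.inl 3) → c p ≠ c q) :
    (c (Sum.inl 1) = c (Sum.inl 2) ∧ c (Sum.inl 3) = c (Sum.inl 1)) ∨
    (c (Sum.inl 1) ≠ c (Sum.inl 2) ∧ c (Sum.inl 3) = c (Sum.inl 0)) := by
  classical
  let S : Finset (Fin (m + 4)) := Finset.univ.image (fun z : Fin m => c (Sum.inr z))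
  have hS : S.card = m := by
    rw [Finset.card_image_of_injective]
    · simp
    · intro z w hzw
      by_contra hne
      refine h (Sum.inr z) (Sum.inr w) ((JG_rr m z w).mpr hne) ?_ ?_ hzw
      · intro h'; rw [Sym2.eq_iff] at h'; simp at h'
      · intro h'; rw [Sym2.eq_iff] at h'; simp at h'
  have hT : Sᶜ.card = 4 := by
    rw [Finset.card_compl, hS, Fintype.card_fin]; omega
  let e : ↥(Sᶜ) ≃ Fin 4 := Finset.equivFinOfCardEq hT
  have hmem : ∀ b : Fin 10, c (Sum.inl b) ∈ Sᶜ := by
    intro b
    rw [Finset.mem_compl]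
    intro hb
    obtain ⟨z, _, hz⟩ := Finset.mem_image.mp hb
    refine h (Sum.inr z) (Sum.inl b) (JG_rl m b z) ?_ ?_ hz
    · intro h'; rw [Sym2.eq_iff] at h'; simp at h'
    · intro h'; rw [Sym2.eq_iff] at h'; simp at h'
  have hcc : ∀ a b : Fin 10, e ⟨c (Sum.inl a), hmem a⟩ = e ⟨c (Sum.inl b), hmem b⟩ ↔
      c (Sum.inl a) = c (Sum.inl b) := by
    intro a b
    rw [e.apply_eq_iff_eq, Subtype.mk.injEq]
  have := P1 (fun b => e ⟨c (Sum.inl b), hmem b⟩) (by
    intro a b hab h1 h2
    rw [ne_eq, hcc]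
    refine h _ _ ((JG_ll m a b).mpr hab) ?_ ?_
    · intro h'; apply h1; rw [Sym2.eq_iff] at h' ⊢; simpa using h'
    · intro h'; apply h2; rw [Sym2.eq_iff] at h' ⊢; simpa using h')
  simp only [ne_eq, hcc] at this
  exact this

theorem JG_not_colorable (m : ℕ) : ¬ (JG m).Colorable (m + 4) := by
  rintro ⟨c⟩
  have h := P2 m c (fun p q hpq _ _ => c.valid hpq)
  have h12 : c (Sum.inl 1) ≠ c (Sum.inl 2) := c.valid ((JG_ll m 1 2).mpr (by decide))
  have h03 : c (Sum.inl 0) ≠ c (Sum.inl 3) := c.valid ((JG_ll m 0 3).mpr (by decide))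
  rcases h with ⟨h, _⟩ | ⟨_, h⟩
  · exact h12 h
  · exact h03 h.symm

/-- colour of a base vertex -/
def cl (m : ℕ) (i : Fin 4) : Fin (m + 4) := Fin.natAdd m i
/-- colour of a vertex of the complete graph -/
def cr (m : ℕ) (z : Fin m) : Fin (m + 4) := Fin.castAdd 4 z

theorem cl_inj (m : ℕ) : Function.Injective (cl m) := by
  intro a b h
  simpa [cl, Fin.ext_iff] using h
theorem cr_inj (m : ℕ) : Function.Injective (cr m) := by
  intro a b h
  simpa [cr, Fin.ext_iff] using h
theorem cl_ne_cr (m : ℕ) (i : Fin 4) (z : Fin m) : cl m i ≠ cr m z := by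
  intro h
  have h' := congrArg Fin.val h
  simp [cl, cr] at h'
  have := z.isLt
  omega

theorem JG_delete (m : ℕ) (p q : Fin 10 ⊕ Fin m) (hpq : (JG m).Adj p q) :
    ((JG m).deleteEdges {s(p, q)}).Colorable (m + 4) := by
  classical
  have mixed : ∀ (b : Fin 10) (z : Fin m),
      ((JG m).deleteEdges {s(Sum.inl b, Sum.inr z)}).Colorable (m + 4) := by
    intro b z
    obtain ⟨b', hb'⟩ := B_nbr b
    obtain ⟨f, hf⟩ := B_delete b b' hb'
    have hf' : ∀ x y, B.Adj x y → x ≠ b → y ≠ b → f x ≠ f y := by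
      intro x y hxy hx hy
      refine hf x y hxy ?_
      intro h
      rw [Sym2.eq_iff] at h
      rcases h with ⟨h, _⟩ | ⟨_, h⟩
      · exact hx h
      · exact hy h
    refine ⟨Coloring.mk (fun v => match v with
      | Sum.inl a => if a = b then cr m z else cl m (f a)
      | Sum.inr w => cr m w) ?_⟩
    rintro (x | x) (y | y) hxy <;> rw [deleteEdges_adj, Set.mem_singleton_iff] at hxy
    · have hB : B.Adj x y := hxy.1
      by_cases hx : x = b
      · have hy : y ≠ b := by rintro rfl; exact hB.ne hx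
        simp only [if_pos hx, if_neg hy]
        exact (cl_ne_cr m _ _).symm
      · by_cases hy : y = b
        · simp only [if_neg hx, if_pos hy]
          exact cl_ne_cr m _ _
        · simp only [if_neg hx, if_neg hy]
          exact fun h => hf' x y hB hx hy (cl_inj m h)
    · by_cases hx : x = b
      · simp only [if_pos hx]
        intro h
        have := cr_inj m h
        apply hxy.2
        rw [hx, this]
      · simp only [if_neg hx]
        exact cl_ne_cr m _ _
    · by_cases hy : y = b
      · simp only [if_pos hy]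
        intro h
        have := cr_inj m h
        apply hxy.2
        rw [hy, this, Sym2.eq_swap]
      · simp only [if_neg hy]
        exact (cl_ne_cr m _ _).symm
    · have : x ≠ y := hxy.1
      exact fun h => this (cr_inj m h)
  rcases p with p | p <;> rcases q with q | q
  · obtain ⟨f, hf⟩ := B_delete p q hpq
    refine ⟨Coloring.mk (fun v => match v with
      | Sum.inl a => cl m (f a)
      | Sum.inr w => cr m w) ?_⟩
    rintro (x | x) (y | y) hxy <;> rw [deleteEdges_adj, Set.mem_singleton_iff] at hxy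
    · have hB : B.Adj x y := hxy.1
      intro h
      refine hf x y hB ?_ (cl_inj m h)
      intro h'
      apply hxy.2
      rw [Sym2.eq_iff] at h' ⊢
      simpa using h'
    · exact cl_ne_cr m _ _
    · exact (cl_ne_cr m _ _).symm
    · have : x ≠ y := hxy.1
      exact fun h => this (cr_inj m h)
  · exact mixed p q
  · rw [Sym2.eq_swap]
    exact mixed q p
  · -- edge inside the complete graph
    have hpq' : p ≠ q := hpq
    obtain ⟨b', hb'⟩ := B_nbr 0
    obtain ⟨f, hf⟩ := B_delete 0 b' hb'
    have hf' : ∀ x y, B.Adj x y → x ≠ 0 → y ≠ 0 → f x ≠ f y := by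
      intro x y hxy hx hy
      refine hf x y hxy ?_
      intro h
      rw [Sym2.eq_iff] at h
      rcases h with ⟨h, _⟩ | ⟨_, h⟩
      · exact hx h
      · exact hy h
    refine ⟨Coloring.mk (fun v => match v with
      | Sum.inl a => if a = 0 then cr m p else cl m (f a)
      | Sum.inr w => if w = p then cr m q else cr m w) ?_⟩
    rintro (x | x) (y | y) hxy <;> rw [deleteEdges_adj, Set.mem_singleton_iff] at hxy
    · have hB : B.Adj x y := hxy.1
      by_cases hx : x = 0
      · have hy : y ≠ 0 := by rintro rfl; exact hB.ne hx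
        simp only [if_pos hx, if_neg hy]
        exact (cl_ne_cr m _ _).symm
      · by_cases hy : y = 0
        · simp only [if_neg hx, if_pos hy]
          exact cl_ne_cr m _ _
        · simp only [if_neg hx, if_neg hy]
          exact fun h => hf' x y hB hx hy (cl_inj m h)
    · by_cases hx : x = 0
      · simp only [if_pos hx]
        by_cases hy : y = p
        · simp only [if_pos hy]
          exact fun h => hpq' (cr_inj m h)
        · simp only [if_neg hy]
          exact fun h => hy (cr_inj m h).symm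
      · simp only [if_neg hx]
        by_cases hy : y = p
        · simp only [if_pos hy]; exact cl_ne_cr m _ _
        · simp only [if_neg hy]; exact cl_ne_cr m _ _
    · by_cases hy : y = 0
      · simp only [if_pos hy]
        by_cases hx : x = p
        · simp only [if_pos hx]
          exact fun h => hpq' (cr_inj m h).symm
        · simp only [if_neg hx]
          exact fun h => hx (cr_inj m h)
      · simp only [if_neg hy]
        by_cases hx : x = p
        · simp only [if_pos hx]; exact (cl_ne_cr m _ _).symm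
        · simp only [if_neg hx]; exact (cl_ne_cr m _ _).symm
    · have hne : x ≠ y := hxy.1
      by_cases hx : x = p
      · have hy : y ≠ p := by rintro rfl; exact hne hx
        simp only [if_pos hx, if_neg hy]
        intro h
        apply hxy.2
        rw [hx, ← cr_inj m h]
      · by_cases hy : y = p
        · simp only [if_neg hx, if_pos hy]
          intro h
          apply hxy.2
          rw [hy, cr_inj m h, Sym2.eq_swap]
        · simp only [if_neg hx, if_neg hy]
          exact fun h => hne (cr_inj m h)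

theorem JG_critical (m : ℕ) : IsCritical (m + 5) (JG m) := by
  have : Nonempty (Fin 10 ⊕ Fin m) := ⟨Sum.inl 0⟩
  refine isCritical_of (JG m) (m + 4) (JG_not_colorable m) (JG_delete m) ?_
  rintro (a | z)
  · obtain ⟨b, hb⟩ := B_nbr a
    exact ⟨Sum.inl b, hb⟩
  · exact ⟨Sum.inl 0, trivial⟩

end Pool.Agent.H62R3.Dirac
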