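import Mathlib

/-!
# Critical graphs and Dirac's generalisation of the Hajos construction: definitions
-/

set_option autoImplicit false

namespace Pool.Agent.H62R3.Dirac

open SimpleGraph

/-- `G` is `k`-critical: it has chromatic number `k` and every proper subgraph has
chromatic number smaller than `k`. -/
def IsCritical {V : Type} (k : ℕ) (G : SimpleGraph V) : Prop :=
  G.chromaticNumber = k ∧ ∀ G' : G.Subgraph, G' ≠ ⊤ → G'.coe.chromaticNumber < k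

/-- The data of Dirac's construction: `k`-critical graphs `G₁`, `G₂`, complete `h`-graphs
`H₁`, `H₂` in them, vertices `x₁` of `H₁` and `y₁` outside `H₁` adjacent to `x₁`, likewise `x₂`, `y₂`,
and the vertex set `V` obtained from the disjoint vertex sets `V₁`, `V₂` by identifying
`H₁` with `H₂` along a bijection carrying `x₁` to `x₂`. The identification is recorded by the two
canonical injections `j₁ : V₁ → V` and `j₂ : V₂ → V`: they cover `V`, their images meet exactly in the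
common image of `H₁` and `H₂`, and `j₁ x₁ = j₂ x₂`. -/
structure Data (k h : ℕ) (V₁ V₂ V : Type) where
  G₁ : SimpleGraph V₁
  G₂ : SimpleGraph V₂
  crit₁ : IsCritical k G₁
  crit₂ : IsCritical k G₂
  H₁ : Finset V₁
  H₂ : Finset V₂
  clique₁ : G₁.IsNClique h H₁
  clique₂ : G₂.IsNClique h H₂
  x₁ : V₁
  y₁ : V₁
  x₂ : V₂
  y₂ : V₂
  x₁_mem : x₁ ∈ H₁
  y₁_not_mem : y₁ ∉ H₁
  adj₁ : G₁.Adj x₁ y₁
  x₂_mem : x₂ ∈ H₂
  y₂_not_mem : y₂ ∉ H₂
  adj₂ : G₂.Adj x₂ y₂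
  j₁ : V₁ → V
  j₂ : V₂ → V
  inj₁ : Function.Injective j₁
  inj₂ : Function.Injective j₂
  cover : ∀ v, (∃ a, j₁ a = v) ∨ (∃ b, j₂ b = v)
  meet : ∀ a b, j₁ a = j₂ b → a ∈ H₁ ∧ b ∈ H₂
  ident₁ : ∀ a ∈ H₁, ∃ b ∈ H₂, j₁ a = j₂ b
  ident₂ : ∀ b ∈ H₂, ∃ a ∈ H₁, j₁ a = j₂ b
  base : j₁ x₁ = j₂ x₂

/-- The graph produced by Dirac's construction: the edges of `G₁` except `x₁ y₁`, the edges of `G₂`
except `x₂ y₂`, and the new edge `y₁ y₂`. -/
def Data.graph {k h : ℕ} {V₁ V₂ V : Type} (D : Data k h V₁ V₂ V) : SimpleGraph V :=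
  SimpleGraph.fromRel (fun v w =>
    (∃ a b, D.G₁.Adj a b ∧ s(a, b) ≠ s(D.x₁, D.y₁) ∧ D.j₁ a = v ∧ D.j₁ b = w) ∨
    (∃ a b, D.G₂.Adj a b ∧ s(a, b) ≠ s(D.x₂, D.y₂) ∧ D.j₂ a = v ∧ D.j₂ b = w) ∨
    (v = D.j₁ D.y₁ ∧ w = D.j₂ D.y₂))

end Pool.Agent.H62R3.Dirac
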